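import Pool.Agent.H47.ST.Targets

/-!
# stk board, WC: many words with the same content
helper54
-/

namespace Pool.Agent.H54.STK

open Finset Pool.Agent.H47.ST

/-- the word of a function -/
def wd {R L : ℕ} (w : Fin L → Fin R) : List ℕ := List.ofFn fun i => (w i : ℕ)

theorem wd_inj {R L : ℕ} : Function.Injective (wd (R := R) (L := L)) := by
  intro w w' h
  have h1 := List.ofFn_injective h
  funext i
  exact Fin.ext (congrFun h1 i)

/-- the content -/
def ct {R L : ℕ} (w : Fin L → Fin R) : Fin R → Fin (L + 1) := fun c =>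
  ⟨(wd w).count (c : ℕ), by
    have h1 : (wd w).count (c : ℕ) ≤ (wd w).length := List.count_le_length
    have h2 : (wd w).length = L := List.length_ofFn
    omega⟩

theorem wd_lt {R L : ℕ} (w : Fin L → Fin R) : ∀ c ∈ wd w, c < R := by
  intro c hc
  rw [wd, List.mem_ofFn] at hc
  obtain ⟨i, rfl⟩ := hc
  exact (w i).2

theorem pf_WC : T_WC := by
  intro R L hR
  classical
  have hne : (univ : Finset (Fin R → Fin (L + 1))).Nonempty := by
    have : Nonempty (Fin (L + 1)) := ⟨0⟩
    exact univ_nonempty
  obtain ⟨y, _, hy⟩ := exists_max_image (univ : Finset (Fin R → Fin (L + 1)))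
    (fun y => ((univ : Finset (Fin L → Fin R)).filter fun w => ct w = y).card) hne
  refine ⟨((univ : Finset (Fin L → Fin R)).filter fun w => ct w = y).image wd, ?_, ?_, ?_⟩
  · intro w hw
    rw [mem_image] at hw
    obtain ⟨v, _, rfl⟩ := hw
    exact ⟨List.length_ofFn, wd_lt v⟩
  · intro w hw w' hw' c
    rw [mem_image] at hw hw'
    obtain ⟨v, hv, rfl⟩ := hw
    obtain ⟨v', hv', rfl⟩ := hw'
    rw [mem_filter] at hv hv'
    by_cases hc : c < R
    · have h1 := congrFun (hv.2.trans hv'.2.symm) ⟨c, hc⟩
      exact congrArg Fin.val h1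
    · rw [List.count_eq_zero_of_not_mem (fun h => hc (wd_lt v c h)),
        List.count_eq_zero_of_not_mem (fun h => hc (wd_lt v' c h))]
  · rw [card_image_of_injective _ wd_inj]
    have h1 : (univ : Finset (Fin L → Fin R)).card = R ^ L := by
      rw [card_univ, Fintype.card_fun, Fintype.card_fin, Fintype.card_fin]
    have h2 : (univ : Finset (Fin R → Fin (L + 1))).card = (L + 1) ^ R := by
      rw [card_univ, Fintype.card_fun, Fintype.card_fin, Fintype.card_fin]
    have h3 := card_eq_sum_card_fiberwise (s := (univ : Finset (Fin L → Fin R)))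
      (t := (univ : Finset (Fin R → Fin (L + 1)))) (f := ct) (fun _ _ => mem_coe.2 (mem_univ _))
    rw [← h1, h3, ← h2, mul_comm, ← smul_eq_mul, ← sum_const]
    exact sum_le_sum fun z hz => hy z hz

end Pool.Agent.H54.STK
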