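import Pool.Agent.H47.ST.Targets

/-!
# stk board, LN: levels of the home placements, height 0
helper54
-/

namespace Pool.Agent.H54.STK

open Finset Pool.Agent.H47.ST

theorem top_pos (h1 : T_TOP) (r : ℕ) (B : List ℕ) : top 0 (r :: B) ≠ 0 := by
  have h2 : top 0 (r :: B) = top (max 0 (r + 1)) B := rfl
  rw [h2, h1.1]
  have : 0 + 1 ≤ max (max 0 (r + 1)) (top 0 B) := le_trans (by omega) (le_max_left _ _)
  omega

theorem tops_cons (B : List ℕ) (Rs : List (List ℕ)) : tops (B :: Rs) = max (top 0 B) (tops Rs) :=
  rfl

/-- the indicator -/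
noncomputable def ff (q : Pl) : ℝ :=
  if home q.2.1 q.2.2.1 q.2.2.2 ∧ top 0 q.2.2.1 = 0 then (1 : ℝ) else 0

theorem ff_nonneg (q : Pl) : 0 ≤ ff q := by
  unfold ff
  split_ifs <;> norm_num

theorem ff_le (q : Pl) : ff q ≤ 1 := by
  unfold ff
  split_ifs <;> norm_num

theorem zero_case (h1 : T_TOP) (A : List (List ℕ)) : ∀ L : List (List ℕ), tops A = 0 →
    ((plc L A).map ff).sum = 0 := by
  induction A with
  | nil =>
    intro L _
    rfl
  | cons B Rs ih =>
    intro L h
    rw [tops_cons] at h
    have hB : top 0 B = 0 := by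
      have := le_max_left (top 0 B) (tops Rs)
      omega
    have hR : tops Rs = 0 := by
      have := le_max_right (top 0 B) (tops Rs)
      omega
    have h2 : plc L (B :: Rs) = ((List.range (B.length + 1)).map fun p =>
      (L, B.take p, B.drop p, Rs)) ++ plc (L ++ [B]) Rs := rfl
    rw [h2, List.map_append, List.sum_append, ih _ hR, add_zero, List.map_map]
    apply List.sum_eq_zero
    intro x hx
    rw [List.mem_map] at hx
    obtain ⟨p, _, rfl⟩ := hx
    rw [Function.comp_apply]
    unfold ff
    rw [if_neg]
    rintro ⟨⟨h3, _⟩, _⟩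
    have h4 : top 0 (B.take p ++ B.drop p) = max (top 0 (B.take p)) (top 0 (B.drop p)) :=
      h1.2.1 _ _
    rw [List.take_append_drop, hB] at h4
    have h5 : top 0 (B.take p) ≤ max (top 0 (B.take p)) (top 0 (B.drop p)) := le_max_left _ _
    have h6 : top 0 (B.drop p) < top 0 (B.take p) := h3
    omega

theorem one_case (h1 : T_TOP) (A : List (List ℕ)) : ∀ L : List (List ℕ),
    ((plc L A).map ff).sum ≤ 1 := by
  induction A with
  | nil =>
    intro L
    have h2 : plc L [] = [] := rfl
    rw [h2, List.map_nil, List.sum_nil]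
    norm_num
  | cons B Rs ih =>
    intro L
    have h2 : plc L (B :: Rs) = ((List.range (B.length + 1)).map fun p =>
      (L, B.take p, B.drop p, Rs)) ++ plc (L ++ [B]) Rs := rfl
    rw [h2, List.map_append, List.sum_append, List.map_map]
    by_cases hR : tops Rs = 0
    · rw [zero_case h1 Rs _ hR, add_zero, List.range_succ, List.map_append, List.sum_append]
      have h3 : ((List.range B.length).map (ff ∘ fun p => (L, B.take p, B.drop p, Rs))).sum
          = 0 := by
        apply List.sum_eq_zero
        intro x hx
        rw [List.mem_map] at hx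
        obtain ⟨p, hp, rfl⟩ := hx
        rw [List.mem_range] at hp
        rw [Function.comp_apply]
        unfold ff
        rw [if_neg]
        rintro ⟨_, h3⟩
        have h4 : B.drop p = B[p] :: B.drop (p + 1) := List.drop_eq_getElem_cons hp
        have h5 : top 0 (B.drop p) = 0 := h3
        rw [h4] at h5
        exact top_pos h1 _ _ h5
      rw [h3, zero_add, List.map_singleton, List.sum_singleton]
      exact ff_le _
    · have h3 : ((List.range (B.length + 1)).map
          (ff ∘ fun p => (L, B.take p, B.drop p, Rs))).sum = 0 := by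
        apply List.sum_eq_zero
        intro x hx
        rw [List.mem_map] at hx
        obtain ⟨p, hp, rfl⟩ := hx
        rw [Function.comp_apply]
        unfold ff
        rw [if_neg]
        rintro ⟨⟨_, h3⟩, h4⟩
        have h5 : tops Rs ≤ top 0 (B.drop p) := h3
        have h6 : top 0 (B.drop p) = 0 := h4
        omega
      rw [h3, zero_add]
      exact ih _

theorem pf_LN (h1 : T_TOP) : T_LN := fun A => one_case h1 A []

end Pool.Agent.H54.STK
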